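import Pool.Agent.H443.QM.Shift
import Pool.Graph.R_pool_sql_team_seeded_3997aac3.Q246.NR.Box

/-!
# Translations by integer multiples of one number; polynomials as sums over boxes
-/

set_option autoImplicit false
set_option linter.unusedSectionVars false

namespace Pool.Agent.H443.QM

open Pool.Agent.Q246.NR

theorem relA_reindex {h ι ι' : Type} [Fintype h] [Fintype ι] [Fintype ι'] (e : ι' ≃ ι) {ξ : h → ℂ} {g : ι → ℂ}
    {H δ : ℝ} (hr : RelA ξ g H δ) : RelA ξ (fun i => g (e i)) H δ := by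
  obtain ⟨c, hc, l₀, hl₀, hs⟩ := hr
  refine ⟨fun l s => c (e l) s, fun l s => hc _ _, e.symm l₀, ?_, ?_⟩
  · simp only [Equiv.apply_symm_apply]
    exact hl₀
  · simp only [Equiv.apply_symm_apply]
    rw [e.sum_comp (fun l => (∑ s, ξ s * (c l s : ℂ)) * g l)]
    exact hs

section
variable {κ : Type} [Fintype κ] [DecidableEq κ] {d : ℕ}

/-- the matrix for several variables and different translations -/
def MV (r : κ → ℂ) (l l' : κ → Fin (d + 1)) : ℂ := ∏ k, mt (r k) (l k) (l' k)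

theorem prod_MV (r : κ → ℂ) (y : κ → ℂ) (l : κ → Fin (d + 1)) :
    ∏ k, (r k + y k) ^ (l k : ℕ) = ∑ l' : κ → Fin (d + 1), MV r l l' * ∏ k, y k ^ (l' k : ℕ) := by
  rw [Finset.prod_congr rfl fun k _ => add_pow_mt (r k) (y k) (l k), Finset.prod_univ_sum, Fintype.piFinset_univ]
  refine Finset.sum_congr rfl fun l' _ => ?_
  rw [MV, Finset.prod_mul_distrib]

theorem MV_inv (r : κ → ℂ) (l l'' : κ → Fin (d + 1)) :
    ∑ l' : κ → Fin (d + 1), MV r l l' * MV (fun k => -r k) l' l'' = if l = l'' then 1 else 0 := by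
  have h1 : ∀ l' : κ → Fin (d + 1), MV r l l' * MV (fun k => -r k) l' l'' =
      ∏ k, (mt (r k) (l k) (l' k) * mt (-r k) (l' k) (l'' k)) := by
    intro l'
    rw [MV, MV, Finset.prod_mul_distrib]
  rw [Finset.sum_congr rfl fun l' _ => h1 l']
  have h2 := Finset.prod_univ_sum (fun _ : κ => (Finset.univ : Finset (Fin (d + 1))))
    (fun k b => mt (r k) (l k) b * mt (-r k) b (l'' k))
  rw [Fintype.piFinset_univ] at h2
  rw [← h2, Finset.prod_congr rfl fun k _ => mt_inv (r k) (l k) (l'' k)]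
  by_cases h : l = l''
  · rw [if_pos h]
    refine Finset.prod_eq_one fun k _ => ?_
    rw [if_pos (congrFun h k)]
  · rw [if_neg h]
    obtain ⟨k, hk⟩ : ∃ k, l k ≠ l'' k := by
      by_contra hcon
      push Not at hcon
      exact h (funext hcon)
    refine Finset.prod_eq_zero (Finset.mem_univ k) ?_
    rw [if_neg hk]

theorem norm_MV_le (r : κ → ℂ) {R : ℝ} (hR1 : 1 ≤ R) (hR : ∀ k, ‖r k‖ ≤ R) (l l' : κ → Fin (d + 1)) :
    ‖MV r l l'‖ ≤ (2 ^ d * R ^ d) ^ Fintype.card κ := by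
  unfold MV
  rw [norm_prod]
  calc ∏ k, ‖mt (r k) (l k) (l' k)‖ ≤ ∏ _k : κ, (2 ^ d * R ^ d : ℝ) := by
        refine Finset.prod_le_prod (fun _ _ => norm_nonneg _) fun k _ => ?_
        refine (norm_mt_le (d := d) (r k) (Nat.lt_succ_iff.1 (l k).2)).trans ?_
        refine mul_le_mul_of_nonneg_left ?_ (by positivity)
        exact pow_le_pow_left₀ (by positivity) (max_le hR1 (hR k)) _
    _ = _ := by rw [Finset.prod_const, Finset.card_univ]

/-- the integer coefficients -/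
def bm (m : κ → ℤ) (l l' : κ → Fin (d + 1)) : ℤ := ∏ k, ((((l k : ℕ).choose (l' k) : ℕ) : ℤ) * m k ^ ((l k : ℕ) - l' k))

theorem MV_eq (m : κ → ℤ) (ω : ℂ) (l l' : κ → Fin (d + 1)) :
    MV (fun k => (m k : ℂ) * ω) l l' = (bm m l l' : ℂ) * ω ^ ep l l' := by
  unfold MV bm ep mt
  rw [← Finset.prod_pow_eq_pow_sum]
  push_cast
  rw [← Finset.prod_mul_distrib]
  refine Finset.prod_congr rfl fun k _ => ?_
  rw [mul_pow]
  ring

theorem bm_le {m : κ → ℤ} {R : ℝ} (hR1 : 1 ≤ R) (hR : ∀ k, |(m k : ℝ)| ≤ R) (l l' : κ → Fin (d + 1)) :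
    |(bm m l l' : ℝ)| ≤ (2 ^ d * R ^ d) ^ Fintype.card κ := by
  unfold bm
  push_cast
  rw [Finset.abs_prod]
  calc ∏ k, |(((l k : ℕ).choose (l' k) : ℕ) : ℝ) * (m k : ℝ) ^ ((l k : ℕ) - l' k)| ≤ ∏ _k : κ, (2 ^ d * R ^ d : ℝ) := by
        refine Finset.prod_le_prod (fun _ _ => abs_nonneg _) fun k _ => ?_
        rw [abs_mul, Nat.abs_cast, abs_pow]
        refine mul_le_mul (choose_le' (Nat.lt_succ_iff.1 (l k).2)) ?_ (by positivity) (by positivity)
        refine (pow_le_pow_left₀ (abs_nonneg _) (hR k) _).trans (pow_le_pow_right₀ hR1 ?_)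
        have := (l k).2
        omega
    _ = _ := by rw [Finset.prod_const, Finset.card_univ]

/-- translation of the variables by integer multiples of `ω` -/
theorem shiftV {J : Type} [Fintype J] (ξ : J → ℂ) (ω : ℂ) (m : κ → ℤ) (y : κ → ℂ) (H δ R R' : ℝ) (hH : 0 ≤ H)
    (hδ : 0 ≤ δ) (hR1 : 1 ≤ R) (hR : ∀ k, |(m k : ℝ)| ≤ R) (hR1' : 1 ≤ R') (hR' : ∀ k, ‖(m k : ℂ) * ω‖ ≤ R')
    (hrel : RelA ξ (fun l : κ → Fin (d + 1) => ∏ k, ((m k : ℂ) * ω + y k) ^ (l k : ℕ)) H δ) :
    RelA (fun p : J × Fin (Fintype.card κ * d + 1) => ξ p.1 * ω ^ (p.2 : ℕ))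
      (fun l : κ → Fin (d + 1) => ∏ k, y k ^ (l k : ℕ))
      (Fintype.card (κ → Fin (d + 1)) * (2 ^ d * R ^ d) ^ Fintype.card κ * H)
      (δ * (Fintype.card (κ → Fin (d + 1)) * (2 ^ d * R' ^ d) ^ Fintype.card κ)) := by
  classical
  obtain ⟨c, hc, l₀, hl₀, hs⟩ := hrel
  set r : κ → ℂ := fun k => (m k : ℂ) * ω with hr
  set W : (κ → Fin (d + 1)) → ℂ := fun l => ∑ s, ξ s * (c l s : ℂ) with hW
  set W' : (κ → Fin (d + 1)) → ℂ := fun l' => ∑ l, W l * MV r l l' with hW'
  set c' : (κ → Fin (d + 1)) → J × Fin (Fintype.card κ * d + 1) → ℤ := fun l' p =>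
    ∑ l, if ep l l' = (p.2 : ℕ) then c l p.1 * bm m l l' else 0 with hc'
  have hcoef : ∀ l', ∑ p : J × Fin (Fintype.card κ * d + 1), (ξ p.1 * ω ^ (p.2 : ℕ)) * (c' l' p : ℂ) = W' l' := by
    intro l'
    simp only [hc', hW', hW]
    push_cast
    simp only [Finset.mul_sum, Finset.sum_mul]
    rw [Finset.sum_comm]
    refine Finset.sum_congr rfl fun l _ => ?_
    rw [Fintype.sum_prod_type]
    refine Finset.sum_congr rfl fun j _ => ?_
    rw [Finset.sum_eq_single ⟨ep l l', ep_lt l l'⟩]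
    · rw [if_pos rfl, hr, MV_eq]
      simp only
      ring
    · intro b _ hb
      rw [if_neg, mul_zero]
      intro h
      exact hb (Fin.ext h.symm)
    · intro h
      exact absurd (Finset.mem_univ _) h
  have hback : ∀ l'', W l'' = ∑ l', W' l' * MV (fun k => -r k) l' l'' := by
    intro l''
    simp only [hW', Finset.sum_mul]
    rw [Finset.sum_comm]
    have h1 : ∀ l, ∑ l', W l * MV r l l' * MV (fun k => -r k) l' l'' = W l * (if l = l'' then 1 else 0) := by
      intro l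
      rw [← MV_inv r l l'', Finset.mul_sum]
      refine Finset.sum_congr rfl fun l' _ => ?_
      ring
    rw [Finset.sum_congr rfl fun l _ => h1 l]
    simp
  obtain ⟨j, -, hj⟩ := Finset.exists_max_image (Finset.univ : Finset (κ → Fin (d + 1))) (fun j => ‖W' j‖)
    ⟨l₀, Finset.mem_univ _⟩
  set Λ : ℝ := (2 ^ d * R' ^ d) ^ Fintype.card κ with hΛ
  have hbig : ‖W l₀‖ ≤ (Fintype.card (κ → Fin (d + 1)) * Λ) * ‖W' j‖ := by
    rw [hback l₀]
    refine (norm_sum_le _ _).trans ?_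
    calc ∑ l', ‖W' l' * MV (fun k => -r k) l' l₀‖ ≤ ∑ _l' : κ → Fin (d + 1), (‖W' j‖ * Λ) := by
          refine Finset.sum_le_sum fun l' _ => ?_
          rw [norm_mul]
          refine mul_le_mul (hj l' (Finset.mem_univ _)) ?_ (norm_nonneg _) (norm_nonneg _)
          exact norm_MV_le _ hR1' (fun k => by rw [norm_neg]; exact hR' k) l' l₀
      _ = _ := by
          rw [Finset.sum_const, Finset.card_univ, nsmul_eq_mul]
          ring
  have hWpos : 0 < ‖W l₀‖ := norm_pos_iff.2 hl₀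
  refine ⟨c', ?_, j, ?_, ?_⟩
  · intro l' p
    simp only [hc']
    push_cast
    refine (Finset.abs_sum_le_sum_abs _ _).trans ?_
    calc ∑ l : κ → Fin (d + 1), |(if ep l l' = (p.2 : ℕ) then (c l p.1 : ℝ) * (bm m l l' : ℝ) else 0)| ≤
          ∑ _l : κ → Fin (d + 1), (2 ^ d * R ^ d) ^ Fintype.card κ * H := by
          refine Finset.sum_le_sum fun l _ => ?_
          split_ifs
          · rw [abs_mul, mul_comm]
            exact mul_le_mul (bm_le hR1 hR _ _) (hc _ _) (abs_nonneg _) (by positivity)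
          · rw [abs_zero]
            positivity
      _ = _ := by
          rw [Finset.sum_const, Finset.card_univ, nsmul_eq_mul, mul_assoc]
  · intro h
    have h9 : W' j = 0 := (hcoef j).symm.trans h
    rw [h9, norm_zero, mul_zero] at hbig
    linarith
  · have h9 := hcoef j
    rw [h9]
    simp only [hcoef]
    have h1 : ∑ l', W' l' * ∏ k, y k ^ (l' k : ℕ) = ∑ l, W l * ∏ k, (r k + y k) ^ (l k : ℕ) := by
      simp only [prod_MV, hW', Finset.sum_mul, Finset.mul_sum]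
      rw [Finset.sum_comm]
      refine Finset.sum_congr rfl fun l _ => Finset.sum_congr rfl fun l' _ => ?_
      ring
    rw [h1]
    refine hs.trans ?_
    rw [mul_assoc]
    exact mul_le_mul_of_nonneg_left hbig hδ

/-! ### boxes -/

/-- the exponent of a point of the box -/
noncomputable def tB {D : ℕ} (e : κ → Fin (D + 1)) : κ →₀ ℕ := Finsupp.equivFunOnFinite.symm fun i => (e i : ℕ)

theorem tB_inj {D : ℕ} {e e' : κ → Fin (D + 1)} (h : tB e = tB e') : e = e' := by
  funext i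
  have := DFunLike.congr_fun h i
  exact Fin.ext this

theorem tB_surj {D : ℕ} {S : Type} [CommSemiring S] (P : MvPolynomial κ S) (hP : P.totalDegree ≤ D)
    (d : κ →₀ ℕ) (hd : d ∈ P.support) : ∃ e : κ → Fin (D + 1), tB e = d := by
  have h1 : (d.sum fun _ k => k) ≤ D := (MvPolynomial.le_totalDegree hd).trans hP
  have h2 : ∑ i, d i ≤ D := by
    rwa [Finsupp.sum_fintype _ _ (fun _ => rfl)] at h1
  have hi : ∀ i, d i < D + 1 := fun i => by
    have := Finset.single_le_sum (f := fun i => d i) (fun _ _ => Nat.zero_le _) (Finset.mem_univ i)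
    omega
  refine ⟨fun i => ⟨d i, hi i⟩, ?_⟩
  ext s
  rfl

theorem eval_tB {D : ℕ} {S S' : Type} [CommSemiring S] [CommSemiring S'] (φ : S →+* S')
    (P : MvPolynomial κ S) (hP : P.totalDegree ≤ D) (x : κ → S') :
    MvPolynomial.eval₂ φ x P = ∑ e : κ → Fin (D + 1), φ (P.coeff (tB e)) * ∏ s, x s ^ (e s : ℕ) := by
  classical
  rw [MvPolynomial.eval₂_eq']
  have h1 : ∑ d ∈ P.support, φ (P.coeff d) * ∏ i, x i ^ d i =
      ∑ d ∈ Finset.univ.image (tB (κ := κ) (D := D)), φ (P.coeff d) * ∏ i, x i ^ d i := by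
    refine Finset.sum_subset ?_ ?_
    · intro d hd
      obtain ⟨e, he⟩ := tB_surj P hP d hd
      exact Finset.mem_image.2 ⟨e, Finset.mem_univ _, he⟩
    · intro d _ hd
      rw [MvPolynomial.notMem_support_iff.1 hd]
      simp
  rw [h1, Finset.sum_image (fun a _ b _ h => tB_inj h)]
  rfl

end

end Pool.Agent.H443.QM
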