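import Pool.Agent.H443.QM.One
import Pool.Agent.H443.QM.Br

/-!
# Logarithms of quadratic integers: arbitrary branches
-/

set_option autoImplicit false

namespace Pool.Agent.H443.QM

open Pool.Agent.Q246.NR Pool.Agent.H443.QU

/-- the constant `2 π i` -/
noncomputable def om : ℂ := 2 * (Real.pi : ℂ) * Complex.I

theorem norm_om_ge : 1 ≤ ‖om‖ := by
  unfold om
  rw [norm_mul, norm_mul, Complex.norm_I, Complex.norm_real, Real.norm_eq_abs, abs_of_pos Real.pi_pos]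
  have : ‖(2 : ℂ)‖ = 2 := by norm_num
  rw [this]
  linarith [Real.pi_gt_three]

theorem norm_om_le : ‖om‖ ≤ 8 := by
  unfold om
  rw [norm_mul, norm_mul, Complex.norm_I, Complex.norm_real, Real.norm_eq_abs, abs_of_pos Real.pi_pos]
  have : ‖(2 : ℂ)‖ = 2 := by norm_num
  rw [this]
  linarith [Real.pi_lt_four]

theorem branch {u : ℝ} (hu : 0 < u) {l : ℂ} (h : Complex.exp l = u) {H : ℝ} (hl : ‖l‖ ≤ H) :
    ∃ m : ℤ, l = (m : ℂ) * om + ((Real.log u : ℝ) : ℂ) ∧ |(m : ℝ)| ≤ H := by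
  have h1 : (u : ℂ) = Complex.exp ((Real.log u : ℝ) : ℂ) := by
    rw [← Complex.ofReal_exp, Real.exp_log hu]
  rw [h1] at h
  obtain ⟨m, hm⟩ := Complex.exp_eq_exp_iff_exists_int.1 h
  refine ⟨m, ?_, ?_⟩
  · rw [hm]
    unfold om
    ring
  · have h2 : l.im = (m : ℝ) * (2 * Real.pi) := by
      rw [hm]
      simp
    have h3 : |l.im| ≤ H := (Complex.abs_im_le_norm l).trans hl
    rw [h2, abs_mul, abs_of_pos (by positivity : (0 : ℝ) < 2 * Real.pi)] at h3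
    have h4 : (1 : ℝ) ≤ 2 * Real.pi := by linarith [Real.pi_gt_three]
    calc |(m : ℝ)| = |(m : ℝ)| * 1 := (mul_one _).symm
      _ ≤ |(m : ℝ)| * (2 * Real.pi) := mul_le_mul_of_nonneg_left h4 (abs_nonneg _)
      _ ≤ H := h3

section
variable {s : ℕ} (c : Fin s → ℤ)

open Classical in
/-- arbitrary branches -/
theorem multiB (hc : Function.Injective c) (hs : 0 < s) (k d n : ℕ) : ∃ (B : ℕ) (C κ : ℝ), 0 ≤ C ∧ 0 < κ ∧
    ∀ T : ℕ, 1 ≤ T → ∃ H₀ : ℝ, ∀ H : ℝ, H₀ ≤ H → ∀ (J : Type) [Fintype J], Fintype.card J = n → ∀ ξ : J → ℂ,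
      ((((Fintype.piFinset (fun _ : Fin k => Finset.Icc 2 T)).filter fun x => ∃ l : Fin k × Fin s → ℂ,
        (∀ p, Complex.exp (l p) = (qi (c p.2) (x p.1) : ℝ) ∧ ‖l p‖ ≤ H) ∧
        RelA ξ (fun e : Fin k × Fin s → Fin (d + 1) => ∏ p, l p ^ (e p : ℕ)) H (H ^ B)⁻¹).card : ℕ) : ℝ) ≤
        C * (T : ℝ) ^ ((k : ℝ) - κ) := by
  set K₀ : ℕ := Fintype.card (Fin k × Fin s) with hK₀
  obtain ⟨B, C, κ, hC, hκ, h⟩ := multiQ c hc hs k d (n * (K₀ * d + 1))
  set N₀ : ℝ := ((Fintype.card (Fin k × Fin s → Fin (d + 1)) : ℕ) : ℝ) with hN₀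
  set a : ℕ := d * K₀ + 2 with ha
  refine ⟨a * B + d * K₀ + 1, C, κ, hC, hκ, fun T hT => ?_⟩
  obtain ⟨H₀, hH₀⟩ := h T hT
  refine ⟨max (max 1 H₀) (N₀ * (16 ^ d) ^ K₀), fun H hH J _ hJ ξ => ?_⟩
  have hH1 : 1 ≤ H := (le_max_left _ _).trans ((le_max_left _ _).trans hH)
  have hHH : H₀ ≤ H := (le_max_right _ _).trans ((le_max_left _ _).trans hH)
  have hHN : N₀ * (16 ^ d) ^ K₀ ≤ H := (le_max_right _ _).trans hH
  have hHp : 0 < H := by linarith
  have hN₀0 : 0 ≤ N₀ := by positivity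
  refine hH₀ (H ^ a) (hHH.trans (le_self_pow₀ hH1 (by omega))) (J × Fin (K₀ * d + 1)) (by
    rw [Fintype.card_prod, Fintype.card_fin, hJ]) (fun p => ξ p.1 * om ^ (p.2 : ℕ)) _ (Finset.filter_subset _ _) ?_
  intro x hx
  obtain ⟨hxT, l, hl, hrel⟩ := Finset.mem_filter.1 hx
  rw [Fintype.mem_piFinset] at hxT
  have hpos : ∀ p : Fin k × Fin s, 0 < qi (c p.2) (x p.1) := by
    intro p
    have h1 := (Finset.mem_Icc.1 (hxT p.1)).1
    unfold qi
    have h2 : (2 : ℝ) ≤ x p.1 := by exact_mod_cast h1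
    have h3 := Real.sqrt_nonneg ((x p.1 : ℝ) ^ 2 - 4 * c p.2)
    linarith
  choose m hm hm' using fun p => branch (hpos p) (hl p).1 (hl p).2
  have hrel2 : RelA ξ (fun e : Fin k × Fin s → Fin (d + 1) => ∏ p, ((m p : ℂ) * om +
      (fun p : Fin k × Fin s => xl c (x p.1) p.2) p) ^ (e p : ℕ)) H (H ^ (a * B + d * K₀ + 1))⁻¹ := by
    have h1 : (fun e : Fin k × Fin s → Fin (d + 1) => ∏ p, ((m p : ℂ) * om +
        (fun p : Fin k × Fin s => xl c (x p.1) p.2) p) ^ (e p : ℕ)) = fun e => ∏ p, l p ^ (e p : ℕ) := by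
      funext e
      refine Finset.prod_congr rfl fun p _ => ?_
      rw [hm p]
      rfl
    rw [h1]
    exact hrel
  have hsh := shiftV ξ om m (fun p : Fin k × Fin s => xl c (x p.1) p.2) H _ H (8 * H) hHp.le (by positivity) hH1 hm'
    (by linarith) (fun p => by
      rw [norm_mul, Complex.norm_intCast, mul_comm]
      exact mul_le_mul norm_om_le (hm' p) (abs_nonneg _) (by norm_num)) hrel2
  have hsh2 : RelA (fun p : J × Fin (K₀ * d + 1) => ξ p.1 * om ^ (p.2 : ℕ))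
      (fun l : Fin k × Fin s → Fin (d + 1) => ∏ p, (xl c (x p.1) p.2) ^ (l p : ℕ)) (H ^ a) ((H ^ a) ^ B)⁻¹ := by
    refine hsh.mono ?_ ?_
    · rw [← hN₀, ← hK₀, mul_pow, ← pow_mul, ← pow_mul]
      have h1 : N₀ * 2 ^ (d * K₀) ≤ H := by
        refine le_trans ?_ hHN
        rw [← pow_mul]
        exact mul_le_mul_of_nonneg_left (pow_le_pow_left₀ (by norm_num) (by norm_num) _) hN₀0
      calc N₀ * (2 ^ (d * K₀) * H ^ (d * K₀)) * H = (N₀ * 2 ^ (d * K₀)) * (H ^ (d * K₀) * H) := by ring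
        _ ≤ H * (H ^ (d * K₀) * H) := mul_le_mul_of_nonneg_right h1 (by positivity)
        _ = H ^ a := by rw [ha]; ring
    · rw [← hN₀, ← hK₀]
      have h1 : N₀ * (2 ^ d * (8 * H) ^ d) ^ K₀ ≤ H ^ (d * K₀ + 1) := by
        have h2 : (2 ^ d * (8 * H) ^ d) = 16 ^ d * H ^ d := by
          rw [← mul_pow, ← mul_pow]
          congr 1
          ring
        rw [h2, mul_pow, ← mul_assoc, ← pow_mul H]
        calc N₀ * (16 ^ d) ^ K₀ * H ^ (d * K₀) ≤ H * H ^ (d * K₀) :=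
              mul_le_mul_of_nonneg_right hHN (by positivity)
          _ = _ := by ring
      calc (H ^ (a * B + d * K₀ + 1))⁻¹ * (N₀ * (2 ^ d * (8 * H) ^ d) ^ K₀) ≤
            (H ^ (a * B + d * K₀ + 1))⁻¹ * H ^ (d * K₀ + 1) := mul_le_mul_of_nonneg_left h1 (by positivity)
        _ = ((H ^ a) ^ B)⁻¹ := by
            have h3 : H ^ (a * B + d * K₀ + 1) = (H ^ a) ^ B * H ^ (d * K₀ + 1) := by
              rw [← pow_mul, ← pow_add]
              congr 1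
            rw [h3, mul_inv, mul_assoc, inv_mul_cancel₀ (by positivity), mul_one]
  have h4 := relA_reindex (Equiv.curry (Fin k) (Fin s) (Fin (d + 1))).symm hsh2
  convert h4 using 1
  funext e
  unfold mg
  rw [Fintype.prod_prod_type]
  rfl

end

end Pool.Agent.H443.QM
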