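import Pool.Agent.H443.QU.Win
import Pool.Graph.R_pool_sql_team_seeded_3997aac3.Q246.NR.LogLow

/-!
# Lower bounds for polynomials of arbitrary height in the logarithms of quadratic integers
-/

set_option autoImplicit false

open PowerSeries

namespace Pool.Agent.H443.QM

open Pool.Agent.Y113 Pool.Agent.Y916.Al Pool.Agent.Q246.NR Pool.Agent.H443.QU Pool.Agent.Y118.HG Pool.Agent.Y678.HV

section
variable {s : ℕ} {c : Fin s → ℤ} {r : ℕ}

/-! ### exponents -/

/-- the exponents as finitely supported functions -/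
noncomputable def nu {Δ : ℕ} (e : Fin r → Kap c Δ) : ((Fin r × Fin s) × Bool) →₀ ℕ :=
  Finsupp.equivFunOnFinite.symm fun q => (((e q.1.1).1 q.1.2).1 q.2 : ℕ)

theorem nu_apply {Δ : ℕ} (e : Fin r → Kap c Δ) (q : (Fin r × Fin s) × Bool) :
    nu e q = (((e q.1.1).1 q.1.2).1 q.2 : ℕ) := rfl

theorem nu_inj {Δ : ℕ} {e e' : Fin r → Kap c Δ} (h : nu e = nu e') : e = e' := by
  funext l
  apply Subtype.ext
  funext a
  apply Subtype.ext
  funext b
  apply Fin.ext
  exact DFunLike.congr_fun h ((l, a), b)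

theorem nu_surj {Δ D : ℕ} (e' : Fin r → Kap c Δ) (d : ((Fin r × Fin s) × Bool) →₀ ℕ) (hd : ∀ p, d (p, true) = 0)
    (hd' : ∀ p, d (p, false) ≤ D) : ∃ e : Fin r → Kap c (Δ + D), nu e = d + nu e' := by
  have h1 : ∀ l a, ((((e' l).1 a).1 true : ℕ)) + (((e' l).1 a).1 false : ℕ) ≤ Δ := by
    intro l a
    have := ((e' l).1 a).2.1
    rwa [Fintype.sum_bool] at this
  have h2 : ∀ l a, ((((e' l).1 a).1 true : ℕ)) ≤ 1 := fun l a => ((e' l).1 a).2.2
  have hb : ∀ l a b, d ((l, a), b) + (((e' l).1 a).1 b : ℕ) < Δ + D + 1 := by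
    intro l a b
    have e1 := hd (l, a)
    have e2 := hd' (l, a)
    have e3 := h1 l a
    cases b
    · omega
    · omega
  refine ⟨fun l => ⟨fun a => ⟨fun b => ⟨d ((l, a), b) + (((e' l).1 a).1 b : ℕ), hb l a b⟩, ?_, ?_⟩, ?_⟩, ?_⟩
  · rw [Fintype.sum_bool]
    simp only
    have e1 := hd (l, a)
    have e2 := hd' (l, a)
    have e3 := h1 l a
    omega
  · simp only
    have e1 := hd (l, a)
    have e3 := h2 l a
    omega
  · intro a ha
    simp only
    rw [hd (l, a), (e' l).2 a ha]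
  · ext q
    rfl

theorem card_le' (c : Fin s → ℤ) (r Δ : ℕ) : Fintype.card (Fin r → Kap c Δ) ≤ (Δ + 1) ^ (2 * (r * s)) := by
  have h1 : Function.Injective (fun e : Fin r → Kap c Δ => fun q : (Fin r × Fin s) × Bool => ((e q.1.1).1 q.1.2).1 q.2) := by
    intro e e' h
    funext l
    apply Subtype.ext
    funext a
    apply Subtype.ext
    funext b
    exact congrFun h ((l, a), b)
  have h2 := Fintype.card_le_of_injective _ h1
  refine h2.trans (le_of_eq ?_)
  rw [Fintype.card_fun]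
  simp only [Fintype.card_fin, Fintype.card_prod, Fintype.card_bool]
  congr 1
  ring

theorem exists_half (c : Fin s → ℤ) (r D : ℕ) : ∃ Δ : ℕ,
    Fintype.card (Fin r → Kap c (Δ + D)) ≤ 2 * Fintype.card (Fin r → Kap c Δ) := by
  by_contra hcon
  push Not at hcon
  set f : ℕ → ℕ := fun Δ => Fintype.card (Fin r → Kap c Δ) with hf
  have hcon' : ∀ Δ, 2 * f Δ < f (Δ + D) := hcon
  have h0 : 1 ≤ f 0 := by
    rw [hf]
    exact Fintype.card_pos_iff.2 ⟨fun _ => kz c 0⟩
  have hgrow : ∀ j : ℕ, 2 ^ j ≤ f (j * D) := by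
    intro j
    induction j with
    | zero => simpa using h0
    | succ j ih =>
      have h1 := hcon' (j * D)
      have h2 : j * D + D = (j + 1) * D := by ring
      rw [h2] at h1
      rw [pow_succ]
      omega
  set K := 2 * (r * s) with hK
  have hlim := tendsto_pow_const_div_const_pow_of_one_lt K (show (1 : ℝ) < 2 by norm_num)
  have hδ : (0 : ℝ) < 1 / (((D : ℝ) + 1) ^ K * 2) := by positivity
  have hev := (hlim.eventually (gt_mem_nhds hδ)).and (Filter.eventually_ge_atTop 1)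
  obtain ⟨j, hj1, hj2⟩ := hev.exists
  obtain ⟨i, rfl⟩ : ∃ i, j = i + 1 := ⟨j - 1, by omega⟩
  have h1 : (2 : ℝ) ^ i ≤ ((D : ℝ) + 1) ^ K * ((i : ℝ) + 1) ^ K := by
    have h2 : 2 ^ i ≤ (i * D + 1) ^ K := (hgrow i).trans (card_le' c r (i * D))
    have h3 : (i * D + 1) ^ K ≤ (D + 1) ^ K * (i + 1) ^ K := by
      rw [← mul_pow]
      refine Nat.pow_le_pow_left ?_ _
      nlinarith
    exact_mod_cast h2.trans h3
  rw [div_lt_div_iff₀ (by positivity) (by positivity)] at hj1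
  push_cast at hj1
  rw [pow_succ] at hj1
  nlinarith

/-! ### polynomials -/

/-- the polynomial in the logarithms as a polynomial in all the functions -/
noncomputable def rn (Q : MvPolynomial (Fin r × Fin s) ℤ) : MvPolynomial ((Fin r × Fin s) × Bool) ℤ :=
  MvPolynomial.rename (fun p => (p, false)) Q

theorem rn_inj : Function.Injective (fun p : Fin r × Fin s => (p, false)) := by
  intro p p' h
  exact congrArg Prod.fst h

theorem rn_support {D : ℕ} (Q : MvPolynomial (Fin r × Fin s) ℤ) (hQ : Q.totalDegree ≤ D)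
    (d : ((Fin r × Fin s) × Bool) →₀ ℕ) (hd : (rn Q).coeff d ≠ 0) : (∀ p, d (p, true) = 0) ∧ ∀ p, d (p, false) ≤ D := by
  obtain ⟨u, hu, hu'⟩ := MvPolynomial.coeff_rename_ne_zero _ _ _ hd
  rw [← hu]
  constructor
  · intro p
    rw [Finsupp.mapDomain_of_notMem_range]
    rintro ⟨p', hp'⟩
    have := congrArg Prod.snd hp'
    simp at this
  · intro p
    have h1 := Finsupp.mapDomain_apply (rn_inj (r := r) (s := s)) u p
    have h2 : u.mapDomain (fun p : Fin r × Fin s => (p, false)) (p, false) = u p := h1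
    rw [h2]
    have h3 : (u.sum fun _ k => k) ≤ D := (MvPolynomial.le_totalDegree (MvPolynomial.mem_support_iff.2 hu')).trans hQ
    rw [Finsupp.sum_fintype _ _ (fun _ => rfl)] at h3
    exact (Finset.single_le_sum (f := fun i => u i) (fun _ _ => Nat.zero_le _) (Finset.mem_univ p)).trans h3

theorem rn_coeff_le (Q : MvPolynomial (Fin r × Fin s) ℤ) (d : ((Fin r × Fin s) × Bool) →₀ ℕ) :
    |(((rn Q).coeff d : ℤ) : ℝ)| ≤ len Q := by
  by_cases h : (rn Q).coeff d = 0
  · rw [h]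
    simpa using len_nonneg Q
  · obtain ⟨u, hu, hu'⟩ := MvPolynomial.coeff_rename_ne_zero _ _ _ h
    have h1 : (rn Q).coeff d = Q.coeff u := by
      rw [← hu]
      exact MvPolynomial.coeff_rename_mapDomain _ rn_inj _ _
    rw [h1]
    exact abs_coeff_le_len Q u

/-- the coefficient vectors of the multiples -/
noncomputable def vc {Δ : ℕ} (Q : MvPolynomial (Fin r × Fin s) ℤ) (D : ℕ) (e' : Fin r → Kap c Δ)
    (e : Fin r → Kap c (Δ + D)) : ℤ := (rn Q * MvPolynomial.monomial (nu e') 1).coeff (nu e)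

theorem vc_le {Δ D : ℕ} (Q : MvPolynomial (Fin r × Fin s) ℤ) (e' : Fin r → Kap c Δ) (e : Fin r → Kap c (Δ + D)) :
    |(vc Q D e' e : ℝ)| ≤ len Q := by
  unfold vc
  rw [MvPolynomial.coeff_mul_monomial']
  split_ifs with h1
  · rw [mul_one]
    exact rn_coeff_le Q _
  · simpa using len_nonneg Q

theorem supp_mul {Δ D : ℕ} (Q : MvPolynomial (Fin r × Fin s) ℤ) (hQ : Q.totalDegree ≤ D) (e' : Fin r → Kap c Δ)
    (d : ((Fin r × Fin s) × Bool) →₀ ℕ) (hd : (rn Q * MvPolynomial.monomial (nu e') 1).coeff d ≠ 0) :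
    ∃ e : Fin r → Kap c (Δ + D), nu e = d := by
  rw [MvPolynomial.coeff_mul_monomial'] at hd
  split_ifs at hd with h1
  · rw [mul_one] at hd
    obtain ⟨h2, h3⟩ := rn_support Q hQ _ hd
    obtain ⟨e, he⟩ := nu_surj e' _ h2 h3
    refine ⟨e, ?_⟩
    rw [he, tsub_add_cancel_of_le h1]
  · exact absurd rfl hd

theorem vc_sum {Δ D : ℕ} (Q : MvPolynomial (Fin r × Fin s) ℤ) (hQ : Q.totalDegree ≤ D) (e' : Fin r → Kap c Δ)
    (w : (Fin r × Fin s) × Bool → ℂ) : ∑ e : Fin r → Kap c (Δ + D), (vc Q D e' e : ℂ) * ∏ q, w q ^ (nu e q) =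
      MvPolynomial.aeval (fun p => w (p, false)) Q * ∏ q, w q ^ (nu e' q) := by
  classical
  have h0 : MvPolynomial.aeval (fun p => w (p, false)) Q = MvPolynomial.aeval w (rn Q) := by
    unfold rn
    rw [MvPolynomial.aeval_rename]
    rfl
  have h1 : MvPolynomial.aeval w (rn Q) * ∏ q, w q ^ (nu e' q) =
      MvPolynomial.aeval w (rn Q * MvPolynomial.monomial (nu e') 1) := by
    rw [map_mul]
    congr 1
    rw [MvPolynomial.aeval_monomial, map_one, one_mul, Finsupp.prod_fintype _ _ (fun _ => pow_zero _)]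
  rw [h0, h1, MvPolynomial.aeval_def, MvPolynomial.eval₂_eq']
  have h2 : ∑ d ∈ (rn Q * MvPolynomial.monomial (nu e') 1).support, (algebraMap ℤ ℂ)
      ((rn Q * MvPolynomial.monomial (nu e') 1).coeff d) * ∏ i, w i ^ d i =
      ∑ d ∈ Finset.univ.image (nu (c := c) (r := r) (Δ := Δ + D)),
        (algebraMap ℤ ℂ) ((rn Q * MvPolynomial.monomial (nu e') 1).coeff d) * ∏ i, w i ^ d i := by
    refine Finset.sum_subset ?_ ?_
    · intro d hd
      obtain ⟨e, he⟩ := supp_mul Q hQ e' d (MvPolynomial.mem_support_iff.1 hd)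
      exact Finset.mem_image.2 ⟨e, Finset.mem_univ _, he⟩
    · intro d _ hd
      rw [MvPolynomial.notMem_support_iff.1 hd]
      simp
  rw [h2, Finset.sum_image (fun a _ b _ h => nu_inj h)]
  rfl

theorem vc_indep {Δ D : ℕ} {K : Type} [Field K] [CharZero K] (Q : MvPolynomial (Fin r × Fin s) ℤ)
    (hQ : Q.totalDegree ≤ D) (hQ0 : Q ≠ 0) (g : (Fin r → Kap c Δ) → K)
    (h : ∀ e : Fin r → Kap c (Δ + D), ∑ e', g e' * (vc Q D e' e : K) = 0) (e' : Fin r → Kap c Δ) : g e' = 0 := by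
  classical
  set PK : MvPolynomial ((Fin r × Fin s) × Bool) K := MvPolynomial.map (Int.castRingHom K) (rn Q) with hPK
  set G : MvPolynomial ((Fin r × Fin s) × Bool) K := ∑ e', MvPolynomial.monomial (nu e') (g e') with hG
  have hP0 : PK ≠ 0 := by
    intro h0
    apply hQ0
    have h1 : rn Q = 0 := MvPolynomial.map_injective (Int.castRingHom K) (RingHom.injective_int _) (by
      rw [map_zero]
      exact h0)
    exact MvPolynomial.rename_injective _ rn_inj (by
      rw [map_zero]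
      exact h1)
  have hterm : ∀ e' : Fin r → Kap c Δ, PK * MvPolynomial.monomial (nu e') (g e') =
      MvPolynomial.C (g e') * MvPolynomial.map (Int.castRingHom K) (rn Q * MvPolynomial.monomial (nu e') 1) := by
    intro e'
    rw [map_mul, MvPolynomial.map_monomial, map_one, mul_left_comm, MvPolynomial.C_mul_monomial, mul_one]
  have hPG : PK * G = 0 := by
    rw [hG, Finset.mul_sum, Finset.sum_congr rfl fun e' _ => hterm e']
    ext d
    rw [MvPolynomial.coeff_sum, MvPolynomial.coeff_zero]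
    simp only [MvPolynomial.coeff_C_mul, MvPolynomial.coeff_map]
    by_cases hd : ∃ e : Fin r → Kap c (Δ + D), nu e = d
    · obtain ⟨e, rfl⟩ := hd
      exact h e
    · refine Finset.sum_eq_zero fun e' _ => ?_
      have h1 : (rn Q * MvPolynomial.monomial (nu e') 1).coeff d = 0 := by
        by_contra h2
        exact hd (supp_mul Q hQ e' d h2)
      rw [h1]
      simp
  have hG0 : G = 0 := (mul_eq_zero.1 hPG).resolve_left hP0
  have h1 := congrArg (MvPolynomial.coeff (nu e')) hG0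
  rw [hG, MvPolynomial.coeff_sum, MvPolynomial.coeff_zero, Finset.sum_eq_single e'] at h1
  · simpa using h1
  · intro b _ hb
    rw [MvPolynomial.coeff_monomial, if_neg]
    exact fun hcon => hb (nu_inj hcon)
  · intro h2
    exact absurd (Finset.mem_univ _) h2

/-! ### values -/

/-- the values of all the functions -/
noncomputable def wv (c : Fin s → ℤ) (t : ℕ) (g : Fin r → ℕ) (q : (Fin r × Fin s) × Bool) : ℂ :=
  evc ((t : ℂ))⁻¹ (zq (c q.1.2) (g q.1.1 + 1) q.2)

theorem cv_zq (c₀ : ℤ) : ∃ E : ℕ, ∀ H t g : ℕ, (H + 2) ^ E ≤ t → g ≤ H → ∀ b, Cvc ((t : ℂ))⁻¹ (zq c₀ (g + 1) b) := by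
  obtain ⟨q, E₀, hE₀⟩ := base_sys c₀
  refine ⟨2 * E₀ + 1, fun H t g ht hg b => ?_⟩
  have h1 : ((((g + 1 : ℕ) : ℝ) + 2) ^ E₀) < t := by
    have e1 : (g + 1 + 2) ≤ (H + 2) ^ 2 := by nlinarith
    have e2 : (g + 1 + 2) ^ E₀ < t := by
      calc (g + 1 + 2) ^ E₀ ≤ ((H + 2) ^ 2) ^ E₀ := Nat.pow_le_pow_left e1 _
        _ = (H + 2) ^ (2 * E₀) := by rw [← pow_mul]
        _ < (H + 2) ^ (2 * E₀ + 1) := Nat.pow_lt_pow_right (by omega) (by omega)
        _ ≤ t := ht
    exact_mod_cast e2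
  have ht0 : (0 : ℝ) < t := lt_of_le_of_lt (by positivity) h1
  refine Cvc.of_bound (A := (((g + 1 : ℕ) : ℝ) + 2) ^ E₀) (B := (((g + 1 : ℕ) : ℝ) + 2) ^ E₀) (by positivity) ?_
    fun m => ?_
  · rw [norm_inv, Complex.norm_natCast, ← div_eq_mul_inv, div_lt_one ht0]
    exact h1
  · have := (hE₀ (g + 1)).size (some b) m
    rw [pow_succ'] at this
    rw [Complex.norm_ratCast]
    exact this

theorem eexp_kap {c : Fin s → ℤ} {Δ : ℕ} (e : Kap c Δ) (a : Fin s) (b : Bool) :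
    eexp (c a) (e.1 a) b = ((e.1 a).1 b : ℕ) := by
  unfold eexp
  cases b
  · simp
  · simp only [if_true]
    split_ifs with h
    · exact (e.2 a h).symm
    · rfl

theorem ev_ww {t : ℕ} {g : Fin r → ℕ} (hcv : ∀ q : (Fin r × Fin s) × Bool,
    Cvc ((t : ℂ))⁻¹ (zq (c q.1.2) (g q.1.1 + 1) q.2)) {Δ : ℕ} (e : Fin r → Kap c Δ) :
    evc ((t : ℂ))⁻¹ (∏ l, ww c Δ (g l) (e l)) = ∏ q, wv c t g q ^ (nu e q) := by
  have h1 : ∀ l a b, Cvc ((t : ℂ))⁻¹ (zq (c a) (g l + 1) b ^ eexp (c a) ((e l).1 a) b) := fun l a b =>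
    (hcv ((l, a), b)).pow _
  have h2 : ∀ l a, Cvc ((t : ℂ))⁻¹ (wf (c a) Δ (g l + 1) ((e l).1 a)) := fun l a =>
    Cvc.prod _ _ fun b _ => h1 l a b
  have h3 : ∀ l, Cvc ((t : ℂ))⁻¹ (ww c Δ (g l) (e l)) := fun l => Cvc.prod _ _ fun a _ => h2 l a
  rw [Cvc.ev_prod _ _ fun l _ => h3 l, Fintype.prod_prod_type, Fintype.prod_prod_type]
  refine Finset.prod_congr rfl fun l _ => ?_
  unfold Pool.Agent.H443.QU.ww
  rw [Cvc.ev_prod _ _ fun a _ => h2 l a]
  refine Finset.prod_congr rfl fun a _ => ?_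
  unfold wf
  rw [Cvc.ev_prod _ _ fun b _ => h1 l a b]
  refine Finset.prod_congr rfl fun b _ => ?_
  rw [(hcv ((l, a), b)).ev_pow, eexp_kap]
  rfl

/-- lower bounds for all polynomials of degree at most `D` and large height in the logarithms at several shifts -/
theorem lowQ (c : Fin s → ℤ) (hc : Function.Injective c) (hs : 0 < s) (r D : ℕ) : ∃ E B : ℕ,
    ∀ (H t : ℕ) (g : Fin r → ℕ), (H + 2) ^ E ≤ t → (∀ i, g i ≤ H) → SepN (G0 c) g →
    Low (fun p : Fin r × Fin s => evc ((t : ℂ))⁻¹ (Yq (c p.2) (g p.1 + 1))) D B := by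
  classical
  obtain ⟨Δ, hΔ⟩ := exists_half c r D
  obtain ⟨q, E₀, hsys⟩ := sys c (Δ + D) hs r
  obtain ⟨E₂, Bx, hE₂⟩ := GKN 1 1 (Fintype.card (Fin r → Kap c (Δ + D))) q
  choose Eb hEb using fun a => cv_zq (c a)
  obtain ⟨E₃, hE₃⟩ := TT_ne c (Δ + D)
  refine ⟨(E₀ + 1) * E₂ + ∑ a, Eb a + E₃ + 1, Bx + 1, fun H t g ht hg hsep => ?_⟩
  have hpow : ∀ a, a ≤ (E₀ + 1) * E₂ + ∑ a, Eb a + E₃ + 1 → (H + 2) ^ a ≤ t := fun a ha =>
    (Nat.pow_le_pow_right (by omega) ha).trans ht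
  have ht1 : 1 ≤ t := (Nat.one_le_pow _ _ (by omega)).trans ht
  have htR : (0 : ℝ) < t := by exact_mod_cast ht1
  have hB : (1 : ℝ) ≤ (H : ℝ) + 2 := one_le_base H
  -- the point
  set K : IntermediateField ℚ ℂ := ⊥ with hK
  set x : K := ((t : K))⁻¹ with hx
  have hxC : (x : ℂ) = ((t : ℂ))⁻¹ := by
    rw [hx]
    push_cast
    rfl
  have hxn : ‖(x : ℂ)‖ = ((t : ℝ))⁻¹ := by
    rw [hxC, norm_inv, Complex.norm_natCast]
  have hfd : FiniteDimensional ℚ K := by rw [hK]; infer_instance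
  have hrk : Module.finrank ℚ K ≤ 1 := by rw [hK, IntermediateField.finrank_bot]
  have hx0 : x ≠ 0 := by
    intro h
    have h1 : ‖(x : ℂ)‖ = 0 := by rw [h]; simp
    rw [hxn] at h1
    have : ((t : ℝ))⁻¹ ≠ 0 := by positivity
    exact this h1
  have hPt : Pt K x (t : ℝ) := by
    refine ⟨1, (t : K), isIntegral_one, isIntegral_natCast _, ?_, ?_, fun σ => ⟨?_, ?_⟩⟩
    · intro h
      apply hx0
      rw [hx, h, inv_zero]
    · rw [hx, one_div]
    · rw [map_one, norm_one]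
      exact_mod_cast ht1
    · rw [map_natCast, Complex.norm_natCast]
  have hcv : ∀ q : (Fin r × Fin s) × Bool, Cvc ((t : ℂ))⁻¹ (zq (c q.1.2) (g q.1.1 + 1) q.2) := by
    intro q
    refine hEb q.1.2 H t (g q.1.1) (hpow _ ?_) (hg _) q.2
    have : Eb q.1.2 ≤ ∑ a, Eb a := Finset.single_le_sum (f := Eb) (fun _ _ => Nat.zero_le _) (Finset.mem_univ _)
    omega
  -- enumeration
  let eqv : Fin (Fintype.card (Fin r → Kap c (Δ + D))) ≃ (Fin r → Kap c (Δ + D)) := (Fintype.equivFin _).symm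
  let eqv' : Fin (Fintype.card (Fin r → Kap c Δ)) ≃ (Fin r → Kap c Δ) := (Fintype.equivFin _).symm
  have hTne : Polynomial.aeval (x : ℂ) (∏ l, TT c (Δ + D) (g l)) ≠ 0 := by
    rw [map_prod, Finset.prod_ne_zero_iff]
    intro l _
    have h1 := hE₃ (g l) t (by
      have h2 : (g l + 2) ^ E₃ ≤ t := (Nat.pow_le_pow_left (by have := hg l; omega) _).trans (hpow E₃ (by omega))
      exact_mod_cast h2)
    have h2 : Polynomial.aeval (x : ℂ) (TT c (Δ + D) (g l)) =
        ((Polynomial.aeval (1 / (t : ℝ)) (TT c (Δ + D) (g l)) : ℝ) : ℂ) := by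
      have h3 : (x : ℂ) = (((1 / (t : ℝ) : ℝ)) : ℂ) := by
        rw [hxC]
        push_cast
        rw [one_div]
      rw [h3]
      exact Polynomial.aeval_algebraMap_apply ℂ (1 / (t : ℝ)) (TT c (Δ + D) (g l))
    rw [h2]
    exact_mod_cast h1
  obtain ⟨c₀, hc₀, hGK⟩ := hE₂ _ _ (fun j => ∏ l, ww c (Δ + D) (g l) (eqv j l)) (eqv.symm fun _ => kz c (Δ + D)) K x (t : ℝ)
    hfd hrk hx0 hPt ((hsys H g hg).reindex eqv) (by
      simp only [Equiv.apply_symm_apply]
      exact Finset.prod_eq_one fun l _ => ww_kz _ _ _) ((lind g hc hsep).comp _ eqv.injective)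
    (by
      rw [hxn, inv_mul_le_iff₀ htR, mul_one]
      have h1 : 2 * ((H : ℝ) + 2) ^ E₀ ≤ ((H : ℝ) + 2) ^ (E₀ + 1) := by
        rw [pow_succ, mul_comm]
        refine mul_le_mul_of_nonneg_left ?_ (by positivity)
        linarith [show (0 : ℝ) ≤ H by positivity]
      calc (2 * ((H : ℝ) + 2) ^ E₀) ^ E₂ ≤ (((H : ℝ) + 2) ^ (E₀ + 1)) ^ E₂ := pow_le_pow_left₀ (by positivity) h1 _
        _ = (((H + 2) ^ ((E₀ + 1) * E₂) : ℕ) : ℝ) := by rw [← pow_mul]; push_cast; rfl
        _ ≤ (t : ℝ) := by exact_mod_cast hpow _ (by omega))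
    (by rw [pow_one, hxn, mul_inv_cancel₀ htR.ne']) hTne
  -- the size of the monomials
  set V : ℝ := 1 + ∑ q : (Fin r × Fin s) × Bool, ‖wv c t g q‖ with hV
  have hV1 : 1 ≤ V := by
    have : 0 ≤ ∑ q : (Fin r × Fin s) × Bool, ‖wv c t g q‖ := Finset.sum_nonneg fun _ _ => norm_nonneg _
    linarith
  have hVs : ∀ q, ‖wv c t g q‖ ≤ V := by
    intro q
    have := Finset.single_le_sum (f := fun q : (Fin r × Fin s) × Bool => ‖wv c t g q‖) (fun _ _ => norm_nonneg _)
      (Finset.mem_univ q)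
    linarith
  set V' : ℝ := V ^ (Fintype.card ((Fin r × Fin s) × Bool) * Δ) with hV'
  have hVp : 0 < V' := by positivity
  refine ⟨max 1 (V' / c₀), fun H' hH' Q hQ0 hQd hQl => ?_⟩
  have hH'1 : 1 ≤ H' := (le_max_left _ _).trans hH'
  have hH'c : V' / c₀ ≤ H' := (le_max_right _ _).trans hH'
  set v : ℝ := ‖MvPolynomial.aeval (fun p : Fin r × Fin s => evc ((t : ℂ))⁻¹ (Yq (c p.2) (g p.1 + 1))) Q‖ with hv
  have hlen : ∀ e' (e : Fin r → Kap c (Δ + D)), |(vc Q D e' e : ℝ)| ≤ H' := fun e' e => (vc_le (Δ := Δ) Q e' e).trans hQl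
  have hmain := hGK (Fintype.card (Fin r → Kap c Δ)) (fun i j => ((vc Q D (eqv' i) (eqv j) : ℤ) : K)) H' (v * V') (by
      rw [Fintype.linearIndependent_iff]
      intro γ hγ i
      have h1 := vc_indep (K := K) Q hQd hQ0 (fun e' => γ (eqv'.symm e')) (by
        intro e
        have h2 := congrFun hγ (eqv.symm e)
        rw [Finset.sum_apply] at h2
        rw [← Equiv.sum_comp eqv']
        simp only [Pi.smul_apply, smul_eq_mul, Equiv.apply_symm_apply, Pi.zero_apply] at h2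
        simp only [Equiv.symm_apply_apply]
        exact h2) (eqv' i)
      simpa using h1)
    (fun i j => isIntegral_intCast _) hH'1 (by positivity)
    (fun i j σ => by
      rw [map_intCast, Complex.norm_intCast]
      exact hlen _ _) (by
      intro i
      have h1 := vc_sum Q hQd (eqv' i) (wv c t g)
      have h2 : ∑ j, ((((vc Q D (eqv' i) (eqv j) : ℤ) : K)) : ℂ) * evc (x : ℂ) (∏ l, ww c (Δ + D) (g l) (eqv j l)) =
          ∑ e : Fin r → Kap c (Δ + D), (vc Q D (eqv' i) e : ℂ) * ∏ q, wv c t g q ^ (nu e q) := by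
        rw [← eqv.sum_comp]
        refine Finset.sum_congr rfl fun j _ => ?_
        rw [hxC, ev_ww hcv]
        congr 1
      rw [h2, h1, norm_mul]
      have h3 : ‖MvPolynomial.aeval (fun p => wv c t g (p, false)) Q‖ = v := rfl
      rw [h3]
      refine mul_le_mul_of_nonneg_left ?_ (norm_nonneg _)
      rw [norm_prod]
      calc ∏ q, ‖wv c t g q ^ (nu (eqv' i) q)‖ ≤ ∏ _q : (Fin r × Fin s) × Bool, V ^ Δ := by
            refine Finset.prod_le_prod (fun _ _ => norm_nonneg _) fun q _ => ?_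
            rw [norm_pow]
            refine (pow_le_pow_left₀ (norm_nonneg _) (hVs q) _).trans (pow_le_pow_right₀ hV1 ?_)
            rw [nu_apply]
            exact Nat.lt_succ_iff.1 (((eqv' i q.1.1).1 q.1.2).1 q.2).2
        _ = V' := by
            rw [Finset.prod_const, Finset.card_univ, ← pow_mul, mul_comm Δ]) (by omega)
  have h1 : V' ≤ H' * c₀ := by rwa [div_le_iff₀ hc₀] at hH'c
  have h2 : V' ≤ (H' ^ (Bx + 1) * v) * V' := by
    calc V' ≤ H' * c₀ := h1
      _ ≤ H' * (v * V' * H' ^ Bx) := mul_le_mul_of_nonneg_left hmain (by linarith)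
      _ = (H' ^ (Bx + 1) * v) * V' := by ring
  exact le_of_mul_le_mul_right (by rwa [one_mul]) hVp

end

end Pool.Agent.H443.QM
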