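import Pool.Graph.R_pool_sql_team_seeded_3997aac3.Q246.NR.Rel

/-!
# Translation of several variables in near relations
-/

set_option autoImplicit false
set_option linter.unusedSectionVars false

namespace Pool.Agent.H443.QM

open Pool.Agent.Q246.NR

/-- the matrix of a translation -/
def mt {R : Type} [CommRing R] (r : R) (a b : ℕ) : R := ((a.choose b : ℕ) : R) * r ^ (a - b)

theorem add_pow_mt {R : Type} [CommRing R] (r y : R) {d : ℕ} (a : Fin (d + 1)) :
    (r + y) ^ (a : ℕ) = ∑ b : Fin (d + 1), mt r a b * y ^ (b : ℕ) := by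
  rw [add_comm, add_pow, Fin.sum_univ_eq_sum_range (fun b => mt r a b * y ^ b) (d + 1)]
  have h1 : Finset.range ((a : ℕ) + 1) ⊆ Finset.range (d + 1) := by
    intro x hx
    have := a.2
    rw [Finset.mem_range] at hx ⊢
    omega
  rw [← Finset.sum_subset h1]
  · refine Finset.sum_congr rfl fun b _ => ?_
    unfold mt
    ring
  · intro b _ hb
    rw [Finset.mem_range] at hb
    unfold mt
    rw [Nat.choose_eq_zero_of_lt (by omega)]
    simp

theorem mt_inv {d : ℕ} (r : ℂ) (a c : Fin (d + 1)) :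
    ∑ b : Fin (d + 1), mt r a b * mt (-r) b c = if a = c then 1 else 0 := by
  have h1 : ∀ (r : ℂ) (a b : ℕ), mt (Polynomial.C r) a b = Polynomial.C (mt r a b) := by
    intro r a b
    unfold mt
    simp
  have h2 : (Polynomial.X : Polynomial ℂ) ^ (a : ℕ) = ∑ c : Fin (d + 1), Polynomial.C (∑ b : Fin (d + 1), mt r a b *
      mt (-r) b c) * Polynomial.X ^ (c : ℕ) := by
    have h3 := add_pow_mt (Polynomial.C r) (Polynomial.C (-r) + Polynomial.X) a
    have h4 : Polynomial.C r + (Polynomial.C (-r) + Polynomial.X) = Polynomial.X := by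
      rw [map_neg]
      ring
    rw [h4] at h3
    rw [h3]
    have h5 : ∀ b : Fin (d + 1), mt (Polynomial.C r) a b * (Polynomial.C (-r) + Polynomial.X) ^ (b : ℕ) =
        ∑ c : Fin (d + 1), Polynomial.C (mt r a b * mt (-r) b c) * Polynomial.X ^ (c : ℕ) := by
      intro b
      rw [add_pow_mt (Polynomial.C (-r)) Polynomial.X b, Finset.mul_sum]
      refine Finset.sum_congr rfl fun c _ => ?_
      rw [h1, h1, Polynomial.C_mul, mul_assoc]
    rw [Finset.sum_congr rfl fun b _ => h5 b, Finset.sum_comm]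
    refine Finset.sum_congr rfl fun c _ => ?_
    rw [map_sum, Finset.sum_mul]
  have h6 := congrArg (fun p : Polynomial ℂ => p.coeff (c : ℕ)) h2
  simp only [Polynomial.finsetSum_coeff, Polynomial.coeff_C_mul, Polynomial.coeff_X_pow] at h6
  rw [Finset.sum_eq_single c] at h6
  · rw [if_pos rfl, mul_one] at h6
    rw [← h6]
    by_cases hac : a = c
    · rw [if_pos hac, if_pos (by rw [hac])]
    · rw [if_neg hac, if_neg (fun h => hac (Fin.ext h.symm))]
  · intro b _ hb
    rw [if_neg (fun h => hb (Fin.ext h.symm)), mul_zero]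
  · intro h
    exact absurd (Finset.mem_univ _) h

section
variable {κ : Type} [Fintype κ] [DecidableEq κ] {d : ℕ}

/-- the matrix for several variables -/
def MM (r : ℂ) (l l' : κ → Fin (d + 1)) : ℂ := ∏ k, mt r (l k) (l' k)

theorem prod_MM (r : ℂ) (y : κ → ℂ) (l : κ → Fin (d + 1)) :
    ∏ k, (r + y k) ^ (l k : ℕ) = ∑ l' : κ → Fin (d + 1), MM r l l' * ∏ k, y k ^ (l' k : ℕ) := by
  rw [Finset.prod_congr rfl fun k _ => add_pow_mt r (y k) (l k), Finset.prod_univ_sum, Fintype.piFinset_univ]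
  refine Finset.sum_congr rfl fun l' _ => ?_
  rw [MM, Finset.prod_mul_distrib]

theorem MM_inv (r : ℂ) (l l'' : κ → Fin (d + 1)) :
    ∑ l' : κ → Fin (d + 1), MM r l l' * MM (-r) l' l'' = if l = l'' then 1 else 0 := by
  have h1 : ∀ l' : κ → Fin (d + 1), MM r l l' * MM (-r) l' l'' = ∏ k, (mt r (l k) (l' k) * mt (-r) (l' k) (l'' k)) := by
    intro l'
    rw [MM, MM, Finset.prod_mul_distrib]
  rw [Finset.sum_congr rfl fun l' _ => h1 l']
  have h2 := Finset.prod_univ_sum (fun _ : κ => (Finset.univ : Finset (Fin (d + 1))))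
    (fun k b => mt r (l k) b * mt (-r) b (l'' k))
  rw [Fintype.piFinset_univ] at h2
  rw [← h2, Finset.prod_congr rfl fun k _ => mt_inv r (l k) (l'' k)]
  by_cases h : l = l''
  · rw [if_pos h]
    refine Finset.prod_eq_one fun k _ => ?_
    rw [if_pos (congrFun h k)]
  · rw [if_neg h]
    obtain ⟨k, hk⟩ : ∃ k, l k ≠ l'' k := by
      by_contra hcon
      push Not at hcon
      exact h (funext hcon)
    refine Finset.prod_eq_zero (Finset.mem_univ k) ?_
    rw [if_neg hk]

theorem choose_le' {a b d : ℕ} (ha : a ≤ d) : ((a.choose b : ℕ) : ℝ) ≤ 2 ^ d := by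
  have h4 : a.choose b ≤ 2 ^ d := (Nat.choose_le_two_pow _ _).trans (Nat.pow_le_pow_right (by norm_num) ha)
  exact_mod_cast h4

theorem norm_mt_le (r : ℂ) {a b : ℕ} (ha : a ≤ d) : ‖mt r a b‖ ≤ 2 ^ d * (max 1 ‖r‖) ^ d := by
  unfold mt
  rw [norm_mul, Complex.norm_natCast, norm_pow]
  refine mul_le_mul (choose_le' ha) ?_ (by positivity) (by positivity)
  exact (pow_le_pow_left₀ (norm_nonneg _) (le_max_right _ _) _).trans (pow_le_pow_right₀ (le_max_left _ _) (by omega))

theorem norm_MM_le (r : ℂ) (l l' : κ → Fin (d + 1)) : ‖MM r l l'‖ ≤ (2 ^ d * (max 1 ‖r‖) ^ d) ^ Fintype.card κ := by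
  unfold MM
  rw [norm_prod]
  calc ∏ k, ‖mt r (l k) (l' k)‖ ≤ ∏ _k : κ, (2 ^ d * (max 1 ‖r‖) ^ d : ℝ) :=
        Finset.prod_le_prod (fun _ _ => norm_nonneg _) fun k _ => norm_mt_le r (Nat.lt_succ_iff.1 (l k).2)
    _ = _ := by rw [Finset.prod_const, Finset.card_univ]

/-- the product of the binomial coefficients -/
def bn (l l' : κ → Fin (d + 1)) : ℤ := ∏ k, (((l k : ℕ).choose (l' k) : ℕ) : ℤ)

/-- the exponent -/
def ep (l l' : κ → Fin (d + 1)) : ℕ := ∑ k, ((l k : ℕ) - l' k)

theorem MM_eq (r : ℂ) (l l' : κ → Fin (d + 1)) : MM r l l' = (bn l l' : ℂ) * r ^ ep l l' := by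
  unfold MM bn ep mt
  rw [Finset.prod_mul_distrib, Finset.prod_pow_eq_pow_sum]
  push_cast
  rfl

theorem ep_lt (l l' : κ → Fin (d + 1)) : ep l l' < Fintype.card κ * d + 1 := by
  unfold ep
  refine Nat.lt_succ_of_le ?_
  calc ∑ k, ((l k : ℕ) - l' k) ≤ ∑ _k : κ, d := by
        refine Finset.sum_le_sum fun k _ => ?_
        have := (l k).2
        omega
    _ = Fintype.card κ * d := by rw [Finset.sum_const, Finset.card_univ, smul_eq_mul]

theorem bn_le (l l' : κ → Fin (d + 1)) : |(bn l l' : ℝ)| ≤ (2 ^ d) ^ Fintype.card κ := by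
  unfold bn
  push_cast
  rw [Finset.abs_prod]
  calc ∏ k, |(((l k : ℕ).choose (l' k) : ℕ) : ℝ)| ≤ ∏ _k : κ, (2 ^ d : ℝ) := by
        refine Finset.prod_le_prod (fun _ _ => abs_nonneg _) fun k _ => ?_
        rw [Nat.abs_cast]
        exact choose_le' (Nat.lt_succ_iff.1 (l k).2)
    _ = _ := by rw [Finset.prod_const, Finset.card_univ]

/-- translation of the variables -/
theorem shiftM {J : Type} [Fintype J] (ξ : J → ℂ) (r : ℂ) (y : κ → ℂ) (H δ : ℝ) (hH : 0 ≤ H) (hδ : 0 ≤ δ)
    (hrel : RelA ξ (fun l : κ → Fin (d + 1) => ∏ k, (r + y k) ^ (l k : ℕ)) H δ) :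
    RelA (fun p : J × Fin (Fintype.card κ * d + 1) => ξ p.1 * r ^ (p.2 : ℕ))
      (fun l : κ → Fin (d + 1) => ∏ k, y k ^ (l k : ℕ))
      (Fintype.card (κ → Fin (d + 1)) * (2 ^ d) ^ Fintype.card κ * H)
      (δ * (Fintype.card (κ → Fin (d + 1)) * (2 ^ d * (max 1 ‖r‖) ^ d) ^ Fintype.card κ)) := by
  classical
  obtain ⟨c, hc, l₀, hl₀, hs⟩ := hrel
  set W : (κ → Fin (d + 1)) → ℂ := fun l => ∑ s, ξ s * (c l s : ℂ) with hW
  set W' : (κ → Fin (d + 1)) → ℂ := fun l' => ∑ l, W l * MM r l l' with hW'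
  set c' : (κ → Fin (d + 1)) → J × Fin (Fintype.card κ * d + 1) → ℤ := fun l' p =>
    ∑ l, if ep l l' = (p.2 : ℕ) then c l p.1 * bn l l' else 0 with hc'
  have hcoef : ∀ l', ∑ p : J × Fin (Fintype.card κ * d + 1), (ξ p.1 * r ^ (p.2 : ℕ)) * (c' l' p : ℂ) = W' l' := by
    intro l'
    simp only [hc', hW', hW]
    push_cast
    simp only [Finset.mul_sum, Finset.sum_mul]
    rw [Finset.sum_comm]
    refine Finset.sum_congr rfl fun l _ => ?_
    rw [Fintype.sum_prod_type]
    refine Finset.sum_congr rfl fun j _ => ?_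
    rw [Finset.sum_eq_single ⟨ep l l', ep_lt l l'⟩]
    · rw [if_pos rfl, MM_eq]
      simp only
      ring
    · intro b _ hb
      rw [if_neg, mul_zero]
      intro h
      exact hb (Fin.ext h.symm)
    · intro h
      exact absurd (Finset.mem_univ _) h
  have hback : ∀ l'', W l'' = ∑ l', W' l' * MM (-r) l' l'' := by
    intro l''
    simp only [hW', Finset.sum_mul]
    rw [Finset.sum_comm]
    have h1 : ∀ l, ∑ l', W l * MM r l l' * MM (-r) l' l'' = W l * (if l = l'' then 1 else 0) := by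
      intro l
      rw [← MM_inv r l l'', Finset.mul_sum]
      refine Finset.sum_congr rfl fun l' _ => ?_
      ring
    rw [Finset.sum_congr rfl fun l _ => h1 l]
    simp
  obtain ⟨j, -, hj⟩ := Finset.exists_max_image (Finset.univ : Finset (κ → Fin (d + 1))) (fun j => ‖W' j‖)
    ⟨l₀, Finset.mem_univ _⟩
  set Λ : ℝ := (2 ^ d * (max 1 ‖r‖) ^ d) ^ Fintype.card κ with hΛ
  have hbig : ‖W l₀‖ ≤ (Fintype.card (κ → Fin (d + 1)) * Λ) * ‖W' j‖ := by
    rw [hback l₀]
    refine (norm_sum_le _ _).trans ?_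
    calc ∑ l', ‖W' l' * MM (-r) l' l₀‖ ≤ ∑ _l' : κ → Fin (d + 1), (‖W' j‖ * Λ) := by
          refine Finset.sum_le_sum fun l' _ => ?_
          rw [norm_mul]
          refine mul_le_mul (hj l' (Finset.mem_univ _)) ?_ (norm_nonneg _) (norm_nonneg _)
          have := norm_MM_le (-r) l' l₀
          rwa [norm_neg] at this
      _ = _ := by
          rw [Finset.sum_const, Finset.card_univ, nsmul_eq_mul]
          ring
  have hWpos : 0 < ‖W l₀‖ := norm_pos_iff.2 hl₀
  refine ⟨c', ?_, j, ?_, ?_⟩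
  · intro l' p
    simp only [hc']
    push_cast
    refine (Finset.abs_sum_le_sum_abs _ _).trans ?_
    calc ∑ l : κ → Fin (d + 1), |(if ep l l' = (p.2 : ℕ) then (c l p.1 : ℝ) * (bn l l' : ℝ) else 0)| ≤
          ∑ _l : κ → Fin (d + 1), (2 ^ d) ^ Fintype.card κ * H := by
          refine Finset.sum_le_sum fun l _ => ?_
          split_ifs
          · rw [abs_mul, mul_comm]
            exact mul_le_mul (bn_le _ _) (hc _ _) (abs_nonneg _) (by positivity)
          · rw [abs_zero]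
            positivity
      _ = _ := by
          rw [Finset.sum_const, Finset.card_univ, nsmul_eq_mul, mul_assoc]
  · intro h
    have h9 : W' j = 0 := (hcoef j).symm.trans h
    rw [h9, norm_zero, mul_zero] at hbig
    linarith
  · have h9 := hcoef j
    rw [h9]
    simp only [hcoef]
    have h1 : ∑ l', W' l' * ∏ k, y k ^ (l' k : ℕ) = ∑ l, W l * ∏ k, (r + y k) ^ (l k : ℕ) := by
      simp only [prod_MM, hW', Finset.sum_mul, Finset.mul_sum]
      rw [Finset.sum_comm]
      refine Finset.sum_congr rfl fun l _ => Finset.sum_congr rfl fun l' _ => ?_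
      ring
    rw [h1]
    refine hs.trans ?_
    rw [mul_assoc]
    exact mul_le_mul_of_nonneg_left hbig hδ

end

end Pool.Agent.H443.QM
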