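import Pool.Agent.H443.QM.Low
import Pool.Agent.H443.QM.Shift
import Pool.Graph.R_seed8.Y113.W.Count
import Pool.Graph.R_pool_sql_team_seeded_3997aac3.Q246.NR.Multi

/-!
# Logarithms of quadratic integers: few near relations with arbitrary constants
-/

set_option autoImplicit false

open PowerSeries

namespace Pool.Agent.H443.QM

open Pool.Agent.Y113 Pool.Agent.Y916.Al Pool.Agent.Q246.NR Pool.Agent.H443.QU Pool.Agent.Y118.HG Pool.Agent.Y678.HV

theorem evc_ev (t : ℕ) (f : ℚ⟦X⟧) : evc ((t : ℂ))⁻¹ f = ((Pool.Agent.Y113.ev (t : ℝ) f : ℝ) : ℂ) := by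
  unfold evc Pool.Agent.Y113.ev
  rw [Complex.ofReal_tsum]
  refine tsum_congr fun m => ?_
  push_cast
  rw [one_div]

/-- the values -/
theorem xl_eq {s : ℕ} (c : Fin s → ℤ) : ∃ E : ℕ, ∀ H t g : ℕ, (H + 2) ^ E ≤ t → g ≤ H → ∀ a,
    xl c (t + (g + 1)) a = ((Real.log (t : ℝ) : ℝ) : ℂ) + evc ((t : ℂ))⁻¹ (Yq (c a) (g + 1)) := by
  choose E₁ h₁ using fun a => vals (c a)
  refine ⟨2 * ∑ a, E₁ a, fun H t g ht hg a => ?_⟩
  have h2 : (((g + 1 : ℕ) : ℝ) + 2) ^ E₁ a ≤ (t : ℝ) := by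
    have e1 : (g + 1 + 2) ≤ (H + 2) ^ 2 := by nlinarith
    have e2 : (g + 1 + 2) ^ E₁ a ≤ t := by
      refine (Nat.pow_le_pow_left e1 _).trans ?_
      rw [← pow_mul]
      refine (Nat.pow_le_pow_right (by omega) ?_).trans ht
      have e3 : E₁ a ≤ ∑ a, E₁ a := Finset.single_le_sum (f := E₁) (fun _ _ => Nat.zero_le _) (Finset.mem_univ a)
      omega
    exact_mod_cast e2
  obtain ⟨-, -, h4⟩ := h₁ a (g + 1) t h2
  have h5 : Real.log (qi (c a) (t + (g + 1))) = Real.log t + Pool.Agent.Y113.ev (t : ℝ) (Yq (c a) (g + 1)) := by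
    have e5 : ((t + (g + 1) : ℕ) : ℝ) = (t : ℝ) + ((g + 1 : ℕ) : ℝ) := by
      push_cast
      ring
    rw [← h4, qi, e5]
  unfold xl
  rw [h5, evc_ev]
  push_cast
  rfl

section
variable {s : ℕ} (c : Fin s → ℤ)

/-- few near relations in short windows -/
theorem window (hc : Function.Injective c) (hs : 0 < s) (d n : ℕ) : ∃ M E B : ℕ, ∀ H₁ t : ℕ, (H₁ + 2) ^ E ≤ t →
    ∃ H₀ : ℝ, ∀ H : ℝ, H₀ ≤ H → ∀ (J : Type) [Fintype J], Fintype.card J = n → ∀ ξ : J → ℂ, ∀ S : Finset ℕ,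
    (∀ g ∈ S, g ≤ H₁ ∧ RelA ξ (fun l : Fin s → Fin (d + 1) => ∏ k, xl c (t - g) k ^ (l k : ℕ)) H (H ^ B)⁻¹) →
    S.card ≤ M := by
  classical
  set n' : ℕ := n * (Fintype.card (Fin s) * d + 1) with hn'
  set N : ℕ := n' + 1 with hN
  have hG0 := G0_pos c
  choose Ef Bf hlow using fun D : ℕ => lowQ c hc hs N D
  obtain ⟨Dm, B', helim⟩ := elim_rel Bf (Fin s) d n'
  obtain ⟨E₁, hE₁⟩ := xl_eq c
  refine ⟨G0 c * N, ∑ D ∈ Finset.range (Dm + 1), Ef D + E₁ + 1, 2 * B' + 1, fun H₁ t hHt => ?_⟩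
  set E := ∑ D ∈ Finset.range (Dm + 1), Ef D + E₁ with hE
  have h21 : 1 ≤ (H₁ + 2) ^ E := Nat.one_le_pow _ _ (by omega)
  have ht : (H₁ + 2) ^ E + (H₁ + 1) ≤ t := by
    have e1 : (H₁ + 2) ^ (E + 1) = (H₁ + 2) ^ E * (H₁ + 2) := pow_succ _ _
    rw [e1] at hHt
    nlinarith
  set t' := t - (H₁ + 1) with ht'
  have hpow : ∀ a ≤ E, (H₁ + 2) ^ a ≤ t' := by
    intro a ha
    have := Nat.pow_le_pow_right (show 0 < H₁ + 2 by omega) ha
    omega
  have hEf : ∀ D ≤ Dm, (H₁ + 2) ^ Ef D ≤ t' := by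
    intro D hD
    refine hpow _ ?_
    have h1 : Ef D ≤ ∑ D ∈ Finset.range (Dm + 1), Ef D :=
      Finset.single_le_sum (f := fun D => Ef D) (fun _ _ => Nat.zero_le _) (Finset.mem_range.2 (Nat.lt_succ_of_le hD))
    omega
  -- the threshold for one configuration
  have hone : ∀ g : Fin N → Fin (H₁ + 1), SepN (G0 c) (fun i => (g i : ℕ)) → ∃ H₀ : ℝ, ∀ H : ℝ, H₀ ≤ H →
      ∀ (J : Type) [Fintype J], Fintype.card J = n' → ∀ ξ : J → ℂ,
      ¬ ∀ i : Fin N, RelA ξ (fun l : Fin s → Fin (d + 1) => ∏ k,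
        (evc ((t' : ℂ))⁻¹ (Yq (c k) ((g i : ℕ) + 1))) ^ (l k : ℕ)) H (H ^ B')⁻¹ := by
    intro g hg
    obtain ⟨H₀, hH₀⟩ := helim (Fin N) (fun p : Fin N × Fin s => evc ((t' : ℂ))⁻¹ (Yq (c p.2) ((g p.1 : ℕ) + 1)))
      (fun D hD => hlow D H₁ t' (fun i => (g i : ℕ)) (hEf D hD) (fun i => by have := (g i).2; omega) hg)
    refine ⟨H₀, fun H hH J _ hJ ξ hcon => ?_⟩
    refine hH₀ H hH J hJ ξ Finset.univ ?_ fun i _ => hcon i
    rw [Finset.card_univ, Fintype.card_fin]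
    omega
  choose! Hg hHg using hone
  set L : ℂ := ((Real.log (t' : ℝ) : ℝ) : ℂ) with hL
  set Λ₁ : ℝ := Fintype.card (Fin s → Fin (d + 1)) * (2 ^ d) ^ Fintype.card (Fin s) with hΛ₁
  set Λ : ℝ := Fintype.card (Fin s → Fin (d + 1)) * (2 ^ d * (max 1 ‖L‖) ^ d) ^ Fintype.card (Fin s) with hΛ
  set H₀ : ℝ := ∑ g : Fin N → Fin (H₁ + 1), |Hg g| with hH₀
  refine ⟨max (max 1 Λ₁) (max Λ H₀), fun H hH J _ hJ ξ S hS => ?_⟩
  have hH1 : 1 ≤ H := (le_max_left _ _).trans ((le_max_left _ _).trans hH)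
  have hH2 : Λ₁ ≤ H := (le_max_right _ _).trans ((le_max_left _ _).trans hH)
  have hHΛ : Λ ≤ H := (le_max_left _ _).trans ((le_max_right _ _).trans hH)
  have hHH : H₀ ≤ H := (le_max_right _ _).trans ((le_max_right _ _).trans hH)
  have hHp : 0 < H := by linarith
  by_contra hcard
  push Not at hcard
  set S' := S.image fun g => H₁ - g with hS'
  have hS'c : S'.card = S.card := by
    refine Finset.card_image_of_injOn ?_
    intro g hg g' hg' h
    have e1 := (hS g hg).1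
    have e2 := (hS g' hg').1
    simp only at h
    omega
  set e := S'.orderEmbOfFin rfl with he
  have hidx : ∀ i : Fin N, (i : ℕ) * G0 c < S'.card := by
    intro i
    rw [hS'c]
    have h1 : (i : ℕ) < N := i.2
    nlinarith
  set γ : Fin N → ℕ := fun i => e ⟨(i : ℕ) * G0 c, hidx i⟩ with hγ
  have hγS : ∀ i, ∃ g ∈ S, H₁ - g = γ i := by
    intro i
    have h1 : γ i ∈ S' := Finset.orderEmbOfFin_mem S' rfl _
    exact Finset.mem_image.1 h1
  have hγH : ∀ i, γ i ≤ H₁ := by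
    intro i
    obtain ⟨g, -, hg⟩ := hγS i
    omega
  have hgap : ∀ a b : Fin S'.card, a ≤ b → (e a : ℕ) + ((b : ℕ) - a) ≤ e b := by
    intro a b hab
    obtain ⟨a, ha⟩ := a
    obtain ⟨b, hb⟩ := b
    simp only [Fin.mk_le_mk] at hab
    simp only
    induction b with
    | zero =>
      have : a = 0 := by omega
      subst this
      simp
    | succ b ih =>
      rcases Nat.lt_or_ge b a with h1 | h1
      · have : a = b + 1 := by omega
        subst this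
        simp
      · have h2 := ih (by omega) h1
        have h3 : e ⟨b, by omega⟩ < e ⟨b + 1, hb⟩ := e.strictMono (by
          rw [Fin.mk_lt_mk]
          omega)
        omega
  have hγsep : SepN (G0 c) γ := by
    intro i j hij
    have h1 : ∀ i j : Fin N, i < j → γ i + G0 c ≤ γ j := by
      intro i j hij
      have h2 := hgap ⟨(i : ℕ) * G0 c, hidx i⟩ ⟨(j : ℕ) * G0 c, hidx j⟩ (by
        rw [Fin.mk_le_mk]
        exact Nat.mul_le_mul_right _ (Fin.lt_def.1 hij).le)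
      simp only at h2
      have h3 : (i : ℕ) * G0 c + G0 c ≤ (j : ℕ) * G0 c := by
        have h4 : (i : ℕ) + 1 ≤ j := Fin.lt_def.1 hij
        calc (i : ℕ) * G0 c + G0 c = ((i : ℕ) + 1) * G0 c := by ring
          _ ≤ _ := Nat.mul_le_mul_right _ h4
      simp only [hγ]
      omega
    rcases lt_or_gt_of_ne hij with h2 | h2
    · have h3 := h1 i j h2
      have h4 : ((γ j : ℤ) - γ i) ≤ |(γ i : ℤ) - γ j| := by
        rw [abs_sub_comm]
        exact le_abs_self _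
      omega
    · have h3 := h1 j i h2
      have h4 : ((γ i : ℤ) - γ j) ≤ |(γ i : ℤ) - γ j| := le_abs_self _
      omega
  set g : Fin N → Fin (H₁ + 1) := fun i => ⟨γ i, by have := hγH i; omega⟩ with hg
  have hHgH : Hg g ≤ H ^ 2 := by
    have h1 := Finset.single_le_sum (f := fun g : Fin N → Fin (H₁ + 1) => |Hg g|) (fun _ _ => abs_nonneg _)
      (Finset.mem_univ g)
    have h2 : H ≤ H ^ 2 := by nlinarith
    calc Hg g ≤ |Hg g| := le_abs_self _
      _ ≤ H₀ := h1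
      _ ≤ H := hHH
      _ ≤ H ^ 2 := h2
  refine hHg g hγsep (H ^ 2) hHgH (J × Fin (Fintype.card (Fin s) * d + 1)) (by
    rw [Fintype.card_prod, Fintype.card_fin, hJ])
    (fun p => ξ p.1 * L ^ (p.2 : ℕ)) fun i => ?_
  obtain ⟨g₀, hg₀, hg₀'⟩ := hγS i
  have hr := (hS g₀ hg₀).2
  have hn₀ : t - g₀ = t' + (γ i + 1) := by
    have := (hS g₀ hg₀).1
    omega
  have hx : ∀ k, xl c (t - g₀) k = L + evc ((t' : ℂ))⁻¹ (Yq (c k) (γ i + 1)) := by
    intro k
    rw [hn₀]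
    exact hE₁ H₁ t' (γ i) (hpow _ (by omega)) (hγH i) k
  simp only [hx] at hr
  have hsh := shiftM ξ L _ H ((H ^ (2 * B' + 1))⁻¹) hHp.le (by positivity) hr
  refine hsh.mono ?_ ?_
  · calc Λ₁ * H ≤ H * H := mul_le_mul_of_nonneg_right hH2 hHp.le
      _ = H ^ 2 := by ring
  · rw [← hΛ, ← pow_mul, pow_succ, mul_inv, mul_assoc]
    have h1 : H⁻¹ * Λ ≤ 1 := by
      rw [inv_mul_le_iff₀ hHp, mul_one]
      exact hHΛ
    calc (H ^ (2 * B'))⁻¹ * (H⁻¹ * Λ) ≤ (H ^ (2 * B'))⁻¹ * 1 := mul_le_mul_of_nonneg_left h1 (by positivity)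
      _ = _ := mul_one _

/-- logarithms of quadratic integers -/
theorem oneVar (hc : Function.Injective c) (hs : 0 < s) : OneVar (fun T => Finset.Icc 2 T) (xl c) := by
  classical
  intro d n
  obtain ⟨M, E, B, hw⟩ := window c hc hs d n
  obtain ⟨κ, hκ0, hκ1, C, hC0, hcount⟩ := Pool.Agent.Y113.count_windows M (E + 2)
  refine ⟨B, C, κ, hC0, hκ0, fun T hT => ?_⟩
  choose! Hf hHf using hw
  set H₀ : ℝ := ∑ p ∈ Finset.range (T + 1) ×ˢ Finset.range (2 * T + 1), |Hf p.1 p.2| with hH₀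
  refine ⟨H₀, fun H hH J _ hJ ξ Y hY hrel => ?_⟩
  set Bad : ℕ → Prop := fun p => p ≤ T ∧
    RelA ξ (fun l : Fin s → Fin (d + 1) => ∏ k, xl c p k ^ (l k : ℕ)) H (H ^ B)⁻¹ with hBad
  have h1 := hcount Bad (by
    intro H₁ t hHt S hS
    rcases S.eq_empty_or_nonempty with hSe | ⟨g₀, hg₀⟩
    · rw [hSe, Finset.card_empty]
      exact Nat.zero_le _
    have hg₀' := hS g₀ hg₀
    have hsq : (H₁ + 2) ^ 2 ≤ t := (Nat.pow_le_pow_right (by omega) (by omega)).trans hHt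
    have htT : t ≤ T + H₁ := by
      have h2 := hg₀'.1
      have h3 := hg₀'.2.1
      omega
    have hH₁T : H₁ ≤ T := by nlinarith
    have hH : Hf H₁ t ≤ H := by
      have h2 := Finset.single_le_sum (f := fun p : ℕ × ℕ => |Hf p.1 p.2|) (fun _ _ => abs_nonneg _)
        (show (H₁, t) ∈ Finset.range (T + 1) ×ˢ Finset.range (2 * T + 1) by
          rw [Finset.mem_product, Finset.mem_range, Finset.mem_range]
          exact ⟨by omega, by omega⟩)
      exact (le_abs_self _).trans (h2.trans hH)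
    exact hHf H₁ t ((Nat.pow_le_pow_right (by omega) (by omega)).trans hHt) H hH J hJ ξ S
      (fun g hg => ⟨(hS g hg).1, (hS g hg).2.2⟩)) T hT
  refine le_trans ?_ h1
  have h2 : Y ⊆ (Finset.Icc 2 T).filter Bad := by
    intro x hx
    have hxY := hY hx
    rw [Finset.mem_filter]
    exact ⟨hxY, (Finset.mem_Icc.1 hxY).2, hrel x hx⟩
  have h3 : (Y.card : ℝ) ≤ (((Finset.Icc 2 T).filter Bad).card : ℝ) := by exact_mod_cast Finset.card_le_card h2
  refine h3.trans (le_of_eq ?_)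
  congr!

/-- logarithms of several quadratic integers -/
theorem multiQ (hc : Function.Injective c) (hs : 0 < s) (k d n : ℕ) : ∃ (B : ℕ) (C κ : ℝ), 0 ≤ C ∧ 0 < κ ∧
    ∀ T : ℕ, 1 ≤ T → ∃ H₀ : ℝ, ∀ H : ℝ, H₀ ≤ H → ∀ (J : Type) [Fintype J], Fintype.card J = n → ∀ ξ : J → ℂ,
      ∀ Y ⊆ Fintype.piFinset (fun _ : Fin k => Finset.Icc 2 T),
        (∀ x ∈ Y, RelA ξ (fun e : Fin k → Fin s → Fin (d + 1) => mg (fun _ => xl c) x e) H (H ^ B)⁻¹) →
        (Y.card : ℝ) ≤ C * (T : ℝ) ^ ((k : ℝ) - κ) :=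
  multi k (fun _ T => Finset.Icc 2 T) (fun _ => xl c) (fun _ => oneVar c hc hs)
    (fun _ T => by rw [Nat.card_Icc]; omega) d n

end

end Pool.Agent.H443.QM
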